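import Mathlib

-- part Pool.Agent.Lib.MP_ad3787_an.BW
section

set_option autoImplicit false

namespace Pool.Agent.Lib.MP_ad3787_an

open Polynomial Filter Topology Asymptotics

/-- A weak Bernstein-Walsh inequality for lemniscates. -/
theorem bw_lemniscate (Ω p : ℂ[X]) (hD : 1 ≤ Ω.natDegree) (n : ℕ) (hp : p.natDegree ≤ n)
    (S : ℝ) (hS : 0 < S) (hbd : ∀ z, ‖Ω.eval z‖ ≤ 1 → ‖p.eval z‖ ≤ S) (z : ℂ) :
    ‖p.eval z‖ ^ Ω.natDegree ≤ S ^ Ω.natDegree * (max 1 ‖Ω.eval z‖) ^ (n + 1) := by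
  set D := Ω.natDegree with hDdef
  by_cases hz : ‖Ω.eval z‖ ≤ 1
  · rw [max_eq_left hz, one_pow, mul_one]
    exact pow_le_pow_left₀ (norm_nonneg _) (hbd z hz) _
  push Not at hz
  rw [max_eq_right hz.le]
  have hΩ0 : Ω ≠ 0 := by
    rintro rfl
    simp at hDdef
    omega
  have hdeg : (p ^ D).degree < (Ω ^ (n + 1)).degree := by
    apply degree_lt_degree
    rw [natDegree_pow, natDegree_pow, ← hDdef]
    nlinarith
  have hlo := (isLittleO_cobounded_of_degree_lt hdeg).bound (c := S ^ D) (by positivity)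
  rw [Metric.cobounded_eq_cocompact] at hlo
  obtain ⟨T, hT, hT'⟩ := mem_cocompact.mp hlo
  obtain ⟨R, hR⟩ := (hT.isBounded.union (Bornology.isBounded_singleton (x := z))).subset_ball 0
  set U : Set ℂ := {w | 1 < ‖Ω.eval w‖} ∩ Metric.ball 0 R with hU
  have hcont : Continuous fun w : ℂ => ‖Ω.eval w‖ := (Ω.continuous).norm
  have hUo : IsOpen U := (isOpen_lt continuous_const hcont).inter Metric.isOpen_ball
  have hcl : closure U ⊆ {w | 1 ≤ ‖Ω.eval w‖} := by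
    apply closure_minimal
    · intro w hw
      have h1 : 1 < ‖Ω.eval w‖ := hw.1
      exact h1.le
    · exact isClosed_le continuous_const hcont
  set f : ℂ → ℂ := fun w => (p.eval w) ^ D / (Ω.eval w) ^ (n + 1) with hf
  have hdiff : DifferentiableOn ℂ f (closure U) := by
    intro w hw
    have h1 : 1 ≤ ‖Ω.eval w‖ := hcl hw
    have hne : Ω.eval w ≠ 0 := by
      intro h0
      rw [h0, norm_zero] at h1
      linarith
    apply DifferentiableAt.differentiableWithinAt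
    apply DifferentiableAt.div
    · exact (p.differentiableAt).pow _
    · exact (Ω.differentiableAt).pow _
    · exact pow_ne_zero _ hne
  have hbdd : Bornology.IsBounded U := Metric.isBounded_ball.subset Set.inter_subset_right
  have hfr : ∀ w ∈ frontier U, ‖f w‖ ≤ S ^ D := by
    intro w hw
    rw [hUo.frontier_eq] at hw
    have h1 : 1 ≤ ‖Ω.eval w‖ := hcl hw.1
    have hpos : 0 < ‖Ω.eval w‖ ^ (n + 1) := by positivity
    simp only [hf, norm_div, norm_pow]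
    rw [div_le_iff₀ hpos]
    by_cases h2 : ‖Ω.eval w‖ ≤ 1
    · have h3 : ‖Ω.eval w‖ = 1 := le_antisymm h2 h1
      rw [h3, one_pow, mul_one]
      exact pow_le_pow_left₀ (norm_nonneg _) (hbd w h2) _
    · push Not at h2
      have h3 : w ∉ Metric.ball (0 : ℂ) R := fun h => hw.2 ⟨h2, h⟩
      have h4 : w ∈ Tᶜ := fun h => h3 (hR (Or.inl h))
      have h5 := hT' h4
      simpa [eval_pow, norm_pow] using h5
  have hzU : z ∈ U := ⟨hz, hR (Or.inr rfl)⟩
  have := Complex.norm_le_of_forall_mem_frontier_norm_le hbdd hdiff.diffContOnCl hfr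
    (subset_closure hzU)
  have hpos : 0 < ‖Ω.eval z‖ ^ (n + 1) := by positivity
  simp only [hf, norm_div, norm_pow] at this
  rwa [div_le_iff₀ hpos] at this

end Pool.Agent.Lib.MP_ad3787_an
end

-- part Pool.Agent.Lib.MP_ad3787_an.Reg
section

set_option autoImplicit false

namespace Pool.Agent.Lib.MP_ad3787_an

open Polynomial Filter Topology

/-- One variable polynomial attached to a polynomial in the single variable of `Fin 1`. -/
noncomputable def toP (p : MvPolynomial (Fin 1) ℂ) : ℂ[X] := MvPolynomial.uniqueAlgEquiv ℂ (Fin 1) p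

/-- The inverse passage. -/
noncomputable def ofP (q : ℂ[X]) : MvPolynomial (Fin 1) ℂ :=
  (MvPolynomial.uniqueAlgEquiv ℂ (Fin 1)).symm q

theorem eval_toP (p : MvPolynomial (Fin 1) ℂ) (z : Fin 1 → ℂ) :
    (toP p).eval (z 0) = MvPolynomial.eval z p := by
  have := MvPolynomial.eval₂_uniqueAlgEquiv (σ := Fin 1) (f := p) (φ := RingHom.id ℂ) (a := z)
  simpa [toP, Polynomial.eval₂_id, MvPolynomial.eval₂_id] using this

theorem toP_ofP (q : ℂ[X]) : toP (ofP q) = q := by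
  simp only [toP, ofP, AlgEquiv.apply_symm_apply]

theorem eval_ofP (q : ℂ[X]) (z : Fin 1 → ℂ) :
    MvPolynomial.eval z (ofP q) = q.eval (z 0) := by
  rw [← eval_toP, toP_ofP]

theorem natDegree_toP_le (p : MvPolynomial (Fin 1) ℂ) : (toP p).natDegree ≤ p.totalDegree := by
  rw [natDegree_le_iff_coeff_eq_zero]
  intro N hN
  rw [toP, MvPolynomial.coeff_uniqueAlgEquiv]
  by_contra h
  have h1 := MvPolynomial.le_totalDegree (MvPolynomial.mem_support_iff.mpr h)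
  rw [Finsupp.sum_single_index rfl] at h1
  omega

theorem totalDegree_ofP_le (q : ℂ[X]) : (ofP q).totalDegree ≤ q.natDegree := by
  rw [MvPolynomial.totalDegree]
  apply Finset.sup_le
  intro d hd
  rw [MvPolynomial.mem_support_iff, ofP, MvPolynomial.coeff_uniqueAlgEquiv_symm] at hd
  have h1 := le_natDegree_of_ne_zero hd
  rw [Finsupp.unique_single d, Finsupp.sum_single_index rfl]
  exact h1

/-- The set whose least upper bound is the Siciak extremal function. -/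
def sic (K : Set (Fin 1 → ℂ)) (z : Fin 1 → ℂ) : Set ℝ :=
  {t : ℝ | t = 1 ∨ ∃ p : MvPolynomial (Fin 1) ℂ, 1 ≤ p.totalDegree ∧
          (∀ x ∈ K, ‖MvPolynomial.eval x p‖ ≤ 1) ∧
          t = ‖MvPolynomial.eval z p‖ ^ ((1 : ℝ) / (p.totalDegree : ℝ))}

theorem sic_upper (K1 : Set ℂ) (z : Fin 1 → ℂ) (B : ℝ) (hB : 1 ≤ B)
    (h : ∀ n : ℕ, 1 ≤ n → ∀ q : ℂ[X], q.natDegree ≤ n → (∀ x ∈ K1, ‖q.eval x‖ ≤ 1) →
      ‖q.eval (z 0)‖ ≤ B ^ n) :
    B ∈ upperBounds (sic {y | y 0 ∈ K1} z) := by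
  rintro t (rfl | ⟨p, hp1, hp2, rfl⟩)
  · exact hB
  · have h1 := h p.totalDegree hp1 (toP p) (natDegree_toP_le p) (fun x hx => by
      have := hp2 (fun _ => x) hx
      rwa [← eval_toP] at this)
    rw [eval_toP] at h1
    have hn : p.totalDegree ≠ 0 := by omega
    calc ‖MvPolynomial.eval z p‖ ^ ((1 : ℝ) / (p.totalDegree : ℝ))
        ≤ (B ^ p.totalDegree) ^ ((1 : ℝ) / (p.totalDegree : ℝ)) :=
          Real.rpow_le_rpow (norm_nonneg _) h1 (by positivity)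
      _ = B := by
          rw [one_div]
          exact Real.pow_rpow_inv_natCast (by linarith) hn

theorem sic_lower (K1 : Set ℂ) (hne : K1.Nonempty) (z : Fin 1 → ℂ) (B : ℝ)
    (hB : B ∈ upperBounds (sic {y | y 0 ∈ K1} z)) (n : ℕ) (q : ℂ[X]) (hq : q.natDegree ≤ n)
    (hq1 : ∀ x ∈ K1, ‖q.eval x‖ ≤ 1) : ‖q.eval (z 0)‖ ≤ B ^ n := by
  have hB1 : 1 ≤ B := hB (Or.inl rfl)
  by_cases h0 : (ofP q).totalDegree = 0
  · have h1 : q.natDegree = 0 := by
      have := natDegree_toP_le (ofP q)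
      rw [toP_ofP] at this
      omega
    obtain ⟨x, hx⟩ := hne
    have h2 := hq1 x hx
    rw [eq_C_of_natDegree_eq_zero h1] at h2 ⊢
    rw [eval_C] at h2 ⊢
    exact h2.trans (one_le_pow₀ hB1)
  · have h1 : ‖MvPolynomial.eval z (ofP q)‖ ^ ((1 : ℝ) / ((ofP q).totalDegree : ℝ)) ≤ B :=
      hB (Or.inr ⟨ofP q, by omega, fun x hx => by rw [eval_ofP]; exact hq1 _ hx, rfl⟩)
    rw [eval_ofP] at h1
    have h2 : ‖q.eval (z 0)‖ ≤ B ^ (ofP q).totalDegree := by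
      have h3 := pow_le_pow_left₀ (by positivity) h1 (ofP q).totalDegree
      rwa [one_div, Real.rpow_inv_natCast_pow (norm_nonneg _) h0] at h3
    exact h2.trans (pow_le_pow_right₀ hB1 ((totalDegree_ofP_le q).trans hq))

/-- Abstract criterion for L-regularity in one variable. -/
theorem regular_of (K1 : Set ℂ) (hne : K1.Nonempty)
    (H1 : ∀ z : ℂ, ∃ B : ℝ, 1 ≤ B ∧ ∀ n : ℕ, 1 ≤ n → ∀ q : ℂ[X], q.natDegree ≤ n →
      (∀ x ∈ K1, ‖q.eval x‖ ≤ 1) → ‖q.eval z‖ ≤ B ^ n)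
    (H2 : ∀ ε : ℝ, 0 < ε → ∃ δ : ℝ, 0 < δ ∧ ∀ z : ℂ, ∀ x ∈ K1, ‖z - x‖ ≤ δ →
      ∀ n : ℕ, 1 ≤ n → ∀ q : ℂ[X], q.natDegree ≤ n →
      (∀ x ∈ K1, ‖q.eval x‖ ≤ 1) → ‖q.eval z‖ ≤ (1 + ε) ^ n) :
    ∃ Φ : (Fin 1 → ℂ) → ℝ, Continuous Φ ∧ ∀ z, IsLUB (sic {y | y 0 ∈ K1} z) (Φ z) := by
  set Φ : (Fin 1 → ℂ) → ℝ := fun z => sSup (sic {y | y 0 ∈ K1} z) with hΦ
  have hlub : ∀ z, IsLUB (sic {y | y 0 ∈ K1} z) (Φ z) := by
    intro z
    obtain ⟨B, hB, hB'⟩ := H1 (z 0)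
    exact isLUB_csSup ⟨1, Or.inl rfl⟩ ⟨B, sic_upper K1 z B hB hB'⟩
  have hΦ1 : ∀ z, 1 ≤ Φ z := fun z => (hlub z).1 (Or.inl rfl)
  have key : ∀ ε : ℝ, 0 < ε → ∃ δ : ℝ, 0 < δ ∧ ∀ z z' : Fin 1 → ℂ, ‖z' 0 - z 0‖ ≤ δ →
      Φ z' ≤ (1 + ε) * Φ z := by
    intro ε hε
    obtain ⟨δ, hδ, hδ'⟩ := H2 ε hε
    refine ⟨δ, hδ, fun z z' hzz => ?_⟩
    apply (hlub z').2
    apply sic_upper
    · nlinarith [hΦ1 z]
    intro n hn q hq hq1
    set h : ℂ := z' 0 - z 0 with hh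
    have hpos : (0 : ℝ) < (1 + ε) ^ n := by positivity
    set q' : ℂ[X] := C (((1 + ε) ^ n : ℝ) : ℂ)⁻¹ * q.comp (X + C h) with hq'
    have hev : ∀ x : ℂ, ‖q'.eval x‖ = ((1 + ε) ^ n)⁻¹ * ‖q.eval (x + h)‖ := by
      intro x
      simp only [hq', eval_mul, eval_C, eval_comp, eval_add, eval_X, norm_mul, norm_inv,
        Complex.norm_real, Real.norm_eq_abs, abs_of_pos hpos]
    have hdeg : q'.natDegree ≤ n := by
      refine (natDegree_C_mul_le _ _).trans ?_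
      refine natDegree_comp_le.trans ?_
      rw [natDegree_X_add_C, mul_one]
      exact hq
    have hb : ∀ x ∈ K1, ‖q'.eval x‖ ≤ 1 := by
      intro x hx
      rw [hev, inv_mul_le_iff₀ hpos, mul_one]
      exact hδ' (x + h) x hx (by simpa using hzz) n hn q hq hq1
    have h1 := sic_lower K1 hne z (Φ z) (hlub z).1 n q' hdeg hb
    rw [hev, inv_mul_le_iff₀ hpos] at h1
    have h2 : z 0 + h = z' 0 := by rw [hh]; ring
    rw [h2] at h1
    rw [mul_pow]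
    exact h1
  refine ⟨Φ, ?_, hlub⟩
  rw [Metric.continuous_iff]
  intro b ε hε
  have hb := hΦ1 b
  obtain ⟨δ, hδ, hδ'⟩ := key (ε / (2 * Φ b)) (by positivity)
  refine ⟨δ, hδ, fun a ha => ?_⟩
  have h1 : ‖a 0 - b 0‖ ≤ δ := by
    have := norm_le_pi_norm (a - b) 0
    rw [dist_eq_norm] at ha
    simp only [Pi.sub_apply] at this
    linarith
  have h2 : ‖b 0 - a 0‖ ≤ δ := by rwa [norm_sub_rev]
  have h3 := hδ' b a h1
  have h4 := hδ' a b h2
  set e := ε / (2 * Φ b) with he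
  have he1 : e * Φ b = ε / 2 := by
    rw [he]; field_simp
  have he0 : 0 < e := by positivity
  have ha1 := hΦ1 a
  rw [Real.dist_eq, abs_lt]
  constructor
  · by_contra hcon
    push Not at hcon
    have : Φ a ≤ Φ b := by linarith
    nlinarith
  · nlinarith

end Pool.Agent.Lib.MP_ad3787_an
end

-- part Pool.Agent.Lib.MP_ad3787_an.Seq
section

set_option autoImplicit false

namespace Pool.Agent.Lib.MP_ad3787_an

open Polynomial Filter Topology

theorem lip (P : ℂ[X]) (R : ℝ) : ∃ Λ : ℝ, 1 ≤ Λ ∧ ∀ x y : ℂ, ‖x‖ ≤ R → ‖y‖ ≤ R →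
    ‖P.eval x - P.eval y‖ ≤ Λ * ‖x - y‖ := by
  obtain ⟨M, hM⟩ := (isCompact_closedBall (0 : ℂ) R).exists_bound_of_continuousOn
    (f := fun w => (derivative P).eval w) (derivative P).continuous.continuousOn
  refine ⟨max 1 M, le_max_left _ _, fun x y hx hy => ?_⟩
  have := Convex.norm_image_sub_le_of_norm_hasDerivWithin_le (f := fun w => P.eval w)
    (f' := fun w => (derivative P).eval w) (C := max 1 M) (s := Metric.closedBall (0 : ℂ) R)
    (x := y) (y := x) (fun w _ => (P.hasDerivAt w).hasDerivWithinAt)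
    (fun w hw => (hM w hw).trans (le_max_right _ _)) (convex_closedBall _ _)
    (by simpa using hy) (by simpa using hx)
  exact this

section
variable (Ω : ℕ → ℂ[X]) (hD : ∀ j, 1 ≤ (Ω j).natDegree)
  (hnest : ∀ j z, ‖(Ω (j + 1)).eval z‖ ≤ 3 → ‖(Ω j).eval z‖ ≤ 3)
  (hball : ∀ z, ‖(Ω 0).eval z‖ ≤ 3 → ‖z‖ ≤ 3)
  (hgrow : ∀ j, ∃ d : ℕ, 2 ≤ d ∧ (Ω (j + 1)).natDegree = (Ω j).natDegree * d ∧
    ∀ z, ‖(Ω (j + 1)).eval z‖ ≤ (4 * max 1 ‖(Ω j).eval z‖) ^ d)

include hnest in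
theorem nest_le (i j : ℕ) (hij : i ≤ j) (z : ℂ) (hz : ‖(Ω j).eval z‖ ≤ 3) :
    ‖(Ω i).eval z‖ ≤ 3 := by
  induction j, hij using Nat.le_induction with
  | base => exact hz
  | succ j _ ih => exact ih (hnest j z hz)

include hnest hball in
theorem compact_level (j : ℕ) : IsCompact {z : ℂ | ‖(Ω j).eval z‖ ≤ 3} := by
  apply (isCompact_closedBall (0 : ℂ) 3).of_isClosed_subset
  · exact isClosed_le (Ω j).continuous.norm continuous_const
  · intro z hz
    simpa using hball z (nest_le Ω hnest 0 j (Nat.zero_le _) z hz)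

include hD hgrow in
theorem deg_ge (j : ℕ) : j + 1 ≤ (Ω j).natDegree := by
  induction j with
  | zero => exact hD 0
  | succ j ih =>
    obtain ⟨d, hd, h1, -⟩ := hgrow j
    rw [h1]
    nlinarith

include hgrow in
theorem grow_le (z : ℂ) (J i : ℕ) (hJ : J ≤ i) : ∃ e : ℕ, 1 ≤ e ∧
    (Ω i).natDegree = (Ω J).natDegree * e ∧
    16 * max 1 ‖(Ω i).eval z‖ ≤ (16 * max 1 ‖(Ω J).eval z‖) ^ e := by
  induction i, hJ using Nat.le_induction with
  | base => exact ⟨1, le_rfl, by simp, by simp⟩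
  | succ i _ ih =>
    obtain ⟨e, he, h1, h2⟩ := ih
    obtain ⟨d, hd, h3, h4⟩ := hgrow i
    refine ⟨e * d, by nlinarith, by rw [h3, h1, mul_assoc], ?_⟩
    have hm : 1 ≤ max 1 ‖(Ω i).eval z‖ := le_max_left _ _
    set m := max 1 ‖(Ω i).eval z‖ with hmdef
    have h5 : max 1 ‖(Ω (i + 1)).eval z‖ ≤ (4 * m) ^ d :=
      max_le (one_le_pow₀ (by linarith)) (h4 z)
    have h6 : (16 : ℝ) ≤ 4 ^ d := by
      calc (16 : ℝ) = 4 ^ 2 := by norm_num
        _ ≤ 4 ^ d := pow_le_pow_right₀ (by norm_num) hd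
    calc 16 * max 1 ‖(Ω (i + 1)).eval z‖ ≤ 4 ^ d * (4 * m) ^ d :=
          mul_le_mul h6 h5 (by positivity) (by positivity)
      _ = (16 * m) ^ d := by rw [← mul_pow]; congr 1; ring
      _ ≤ ((16 * max 1 ‖(Ω J).eval z‖) ^ e) ^ d := pow_le_pow_left₀ (by positivity) h2 _
      _ = _ := by rw [← pow_mul]

include hD hnest hball hgrow in
theorem main_est (J : ℕ) (z : ℂ) (n : ℕ) (hn : 1 ≤ n) (q : ℂ[X]) (hq : q.natDegree ≤ n)
    (hq1 : ∀ x ∈ ⋂ j, {z : ℂ | ‖(Ω j).eval z‖ ≤ 3}, ‖q.eval x‖ ≤ 1) :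
    ‖q.eval z‖ ^ (Ω J).natDegree ≤ (16 * max 1 ‖(Ω J).eval z‖) ^ (2 * n) := by
  set μ := 16 * max 1 ‖(Ω J).eval z‖ with hμ
  have hμ1 : 1 ≤ μ := by
    have : (1 : ℝ) ≤ max 1 ‖(Ω J).eval z‖ := le_max_left _ _
    linarith
  have key : ∀ η : ℝ, 0 < η →
      ‖q.eval z‖ ^ (Ω J).natDegree ≤ (1 + η) ^ (Ω J).natDegree * μ ^ (2 * n) := by
    intro η hη
    have hdir : Directed (· ⊇ ·) (fun j => {z : ℂ | ‖(Ω j).eval z‖ ≤ 3}) := by
      intro a b
      exact ⟨max a b, fun z hz => nest_le Ω hnest _ _ (le_max_left _ _) z hz,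
        fun z hz => nest_le Ω hnest _ _ (le_max_right _ _) z hz⟩
    obtain ⟨i0, hi0⟩ := exists_subset_nhds_of_isCompact hdir (compact_level Ω hnest hball)
      (U := {x : ℂ | ‖q.eval x‖ < 1 + η}) (fun x hx =>
        (isOpen_lt q.continuous.norm continuous_const).mem_nhds
          (show ‖q.eval x‖ < 1 + η by have := hq1 x hx; linarith))
    set i := max i0 J with hi
    obtain ⟨e, he, h1, h2⟩ := grow_le Ω hgrow z J i (le_max_right _ _)
    have h3 := bw_lemniscate (Ω i) q (hD i) n hq (1 + η) (by linarith) (fun w hw => by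
      have : ‖q.eval w‖ < 1 + η := hi0 (nest_le Ω hnest i0 i (le_max_left _ _) w (by linarith))
      exact this.le) z
    have hm : 1 ≤ max 1 ‖(Ω i).eval z‖ := le_max_left _ _
    have h4 : (max 1 ‖(Ω i).eval z‖) ^ (n + 1) ≤ (μ ^ (2 * n)) ^ e := by
      calc (max 1 ‖(Ω i).eval z‖) ^ (n + 1) ≤ (max 1 ‖(Ω i).eval z‖) ^ (2 * n) :=
            pow_le_pow_right₀ hm (by omega)
        _ ≤ (μ ^ e) ^ (2 * n) := pow_le_pow_left₀ (by positivity) (by linarith) _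
        _ = _ := by rw [← pow_mul, ← pow_mul, mul_comm]
    have h5 : (‖q.eval z‖ ^ (Ω J).natDegree) ^ e ≤
        ((1 + η) ^ (Ω J).natDegree * μ ^ (2 * n)) ^ e := by
      rw [mul_pow, ← pow_mul, ← pow_mul (1 + η), ← h1]
      exact h3.trans (mul_le_mul_of_nonneg_left h4 (by positivity))
    exact le_of_pow_le_pow_left₀ (by omega) (by positivity) h5
  have ht : Tendsto (fun η : ℝ => (1 + η) ^ (Ω J).natDegree * μ ^ (2 * n)) (𝓝[>] 0)
      (𝓝 ((1 + 0) ^ (Ω J).natDegree * μ ^ (2 * n))) := by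
    apply Tendsto.mono_left _ nhdsWithin_le_nhds
    exact Continuous.tendsto (by fun_prop) 0
  rw [add_zero, one_pow, one_mul] at ht
  exact ge_of_tendsto ht (eventually_nhdsWithin_of_forall key)

include hD hnest hball hgrow in
theorem regular_seq (hne : (⋂ j, {z : ℂ | ‖(Ω j).eval z‖ ≤ 3}).Nonempty) :
    ∃ Φ : (Fin 1 → ℂ) → ℝ, Continuous Φ ∧
      ∀ z, IsLUB (sic {y | y 0 ∈ ⋂ j, {z : ℂ | ‖(Ω j).eval z‖ ≤ 3}} z) (Φ z) := by
  apply regular_of _ hne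
  · intro z
    have hm : (1 : ℝ) ≤ max 1 ‖(Ω 0).eval z‖ := le_max_left _ _
    refine ⟨(16 * max 1 ‖(Ω 0).eval z‖) ^ 2, one_le_pow₀ (by linarith), ?_⟩
    intro n hn q hq hq1
    have h1 := main_est Ω hD hnest hball hgrow 0 z n hn q hq hq1
    rw [← pow_mul]
    by_cases h2 : ‖q.eval z‖ ≤ 1
    · exact h2.trans (one_le_pow₀ (by linarith))
    · push Not at h2
      exact (le_self_pow₀ h2.le (by have := hD 0; omega)).trans h1
  · intro ε hε
    obtain ⟨J, hJ⟩ := exists_nat_ge (4096 / ε)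
    obtain ⟨Λ, hΛ, hΛ'⟩ := lip (Ω J) 4
    refine ⟨1 / Λ, by positivity, fun z x hx hzx n hn q hq hq1 => ?_⟩
    have hx3 : ‖x‖ ≤ 3 := hball x (Set.mem_iInter.mp hx 0)
    have hxJ : ‖(Ω J).eval x‖ ≤ 3 := Set.mem_iInter.mp hx J
    have hΛ1 : 1 / Λ ≤ 1 := by rw [div_le_one (by linarith)]; exact hΛ
    have hz4 : ‖z‖ ≤ 4 := by
      have := norm_add_le (z - x) x
      rw [sub_add_cancel] at this
      linarith
    have h1 := hΛ' z x hz4 (by linarith)
    have h2 : Λ * ‖z - x‖ ≤ 1 := by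
      rw [le_div_iff₀ (by linarith)] at hzx
      linarith
    have h3 : ‖(Ω J).eval z‖ ≤ 4 := by
      have := norm_add_le ((Ω J).eval z - (Ω J).eval x) ((Ω J).eval x)
      rw [sub_add_cancel] at this
      linarith
    have h4 : 16 * max 1 ‖(Ω J).eval z‖ ≤ 64 := by
      have : max 1 ‖(Ω J).eval z‖ ≤ 4 := max_le (by norm_num) h3
      linarith
    have h5 := main_est Ω hD hnest hball hgrow J z n hn q hq hq1
    have h6 : (4096 : ℝ) ≤ (1 + ε) ^ (Ω J).natDegree := by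
      have h7 := one_add_mul_le_pow (a := ε) (by linarith) (Ω J).natDegree
      have h8 : (J : ℝ) + 1 ≤ (Ω J).natDegree := by exact_mod_cast deg_ge Ω hD hgrow J
      rw [div_le_iff₀ hε] at hJ
      nlinarith
    have h9 : ‖q.eval z‖ ^ (Ω J).natDegree ≤ ((1 + ε) ^ n) ^ (Ω J).natDegree := by
      calc _ ≤ _ := h5
        _ ≤ (64 : ℝ) ^ (2 * n) := pow_le_pow_left₀ (by positivity) h4 _
        _ = 4096 ^ n := by rw [pow_mul]; norm_num
        _ ≤ ((1 + ε) ^ (Ω J).natDegree) ^ n := pow_le_pow_left₀ (by positivity) h6 _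
        _ = _ := by rw [← pow_mul, ← pow_mul, mul_comm]
    exact le_of_pow_le_pow_left₀ (by have := hD J; omega) (by positivity) h9

end

end Pool.Agent.Lib.MP_ad3787_an
end

-- part Pool.Agent.Lib.MP_ad3787_an.Det
section

set_option autoImplicit false

namespace Pool.Agent.Lib.MP_ad3787_an

open Matrix Polynomial
open scoped ComplexOrder

/-- Frobenius norm criterion: if the squared entries sum to less than the size then the
determinant has norm less than one. -/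
theorem norm_det_lt_one {n : Type} [Fintype n] [DecidableEq n] (L : Matrix n n ℂ)
    (h : ∑ a, ∑ i, ‖L a i‖ ^ 2 < (Fintype.card n : ℝ)) : ‖L.det‖ < 1 := by
  have hpos : (0 : ℝ) < Fintype.card n :=
    lt_of_le_of_lt (Finset.sum_nonneg fun a _ => Finset.sum_nonneg fun i _ => by positivity) h
  have hG : (L * Lᴴ).PosSemidef := Matrix.posSemidef_self_mul_conjTranspose L
  set ev := hG.1.eigenvalues with hev
  have hnn : ∀ i, 0 ≤ ev i := fun i => hG.eigenvalues_nonneg i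
  have hdet : (L * Lᴴ).det = ∏ i, (ev i : ℂ) := hG.1.det_eq_prod_eigenvalues
  have htr : (L * Lᴴ).trace = ∑ i, (ev i : ℂ) := hG.1.trace_eq_sum_eigenvalues
  have h1 : ‖L.det‖ ^ 2 = ∏ i, ev i := by
    have : ((‖L.det‖ ^ 2 : ℝ) : ℂ) = ((∏ i, ev i : ℝ) : ℂ) := by
      push_cast
      rw [← hdet, Matrix.det_mul, Matrix.det_conjTranspose]
      simp [Complex.mul_conj, Complex.normSq_eq_norm_sq]
    exact_mod_cast this
  have h2 : ∑ a, ∑ i, ‖L a i‖ ^ 2 = ∑ i, ev i := by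
    have : ((∑ a, ∑ i, ‖L a i‖ ^ 2 : ℝ) : ℂ) = ((∑ i, ev i : ℝ) : ℂ) := by
      push_cast
      rw [← htr]
      simp [Matrix.trace, Matrix.mul_apply, Complex.mul_conj, Complex.normSq_eq_norm_sq]
    exact_mod_cast this
  have h3 : ∏ i, ev i ≤ ∏ i, Real.exp (ev i - 1) :=
    Finset.prod_le_prod (fun i _ => hnn i) (fun i _ => by
      have := Real.add_one_le_exp (ev i - 1); linarith)
  have h4 : ∏ i, Real.exp (ev i - 1) < 1 := by
    rw [← Real.exp_sum, Real.exp_lt_one_iff, Finset.sum_sub_distrib, ← h2]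
    simp only [Finset.sum_const, Finset.card_univ, nsmul_eq_mul, mul_one]
    linarith
  have h5 : ‖L.det‖ ^ 2 < 1 := by linarith
  nlinarith [norm_nonneg L.det]

/-- The Vandermonde determinant at points `x` factors through the Lagrange basis at nodes `v`. -/
theorem vandermonde_eq_mul {n : ℕ} (v x : Fin n → ℂ) (hv : Function.Injective v) :
    Matrix.vandermonde x =
      (Matrix.of fun a i => (Lagrange.basis Finset.univ v i).eval (x a)) * Matrix.vandermonde v := by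
  ext a b
  have hdeg : ((X : ℂ[X]) ^ (b : ℕ)).degree < (Finset.univ : Finset (Fin n)).card := by
    rw [degree_X_pow]
    simp
  have := Lagrange.eq_interpolate (s := Finset.univ) (v := v) hv.injOn hdeg
  have h2 := congrArg (eval (x a)) this
  rw [Lagrange.interpolate_apply, eval_finsetSum] at h2
  simp only [eval_pow, eval_X, eval_mul, eval_C] at h2
  simp only [Matrix.vandermonde_apply, Matrix.mul_apply, Matrix.of_apply]
  rw [h2]
  exact Finset.sum_congr rfl fun i _ => mul_comm _ _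

/-- If the squared Lagrange values at `x` sum to less than `n` then `x` has strictly smaller
Vandermonde determinant than the nodes `v`. -/
theorem norm_det_vandermonde_lt {n : ℕ} (v x : Fin n → ℂ) (hv : Function.Injective v)
    (h : ∑ a, ∑ i, ‖(Lagrange.basis Finset.univ v i).eval (x a)‖ ^ 2 < (n : ℝ)) :
    ‖(Matrix.vandermonde x).det‖ < ‖(Matrix.vandermonde v).det‖ := by
  rw [vandermonde_eq_mul v x hv, Matrix.det_mul, norm_mul]
  have h1 := norm_det_lt_one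
    (Matrix.of fun a i => (Lagrange.basis Finset.univ v i).eval (x a)) (by simpa using h)
  have h2 : 0 < ‖(Matrix.vandermonde v).det‖ :=
    norm_pos_iff.mpr (Matrix.det_vandermonde_ne_zero_iff.mpr hv)
  nlinarith [norm_nonneg (Matrix.of fun a i => (Lagrange.basis Finset.univ v i).eval (x a)).det]

end Pool.Agent.Lib.MP_ad3787_an
end

-- part Pool.Agent.Lib.MP_ad3787_an.Avoid
section

set_option autoImplicit false

namespace Pool.Agent.Lib.MP_ad3787_an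

open Polynomial Filter Topology

theorem basis_bound {n : ℕ} (v : Fin n → ℂ) (R : Finset ℂ) (lc : ℂ) (P : ℂ[X])
    (hP : P = C lc * (Lagrange.nodal Finset.univ v * ∏ y ∈ R, (X - C y))) (i : Fin n) (z : ℂ)
    (h : ℝ) (hh : 0 < h) (hh1 : h ≤ 1) (j : ℕ) (hj : R.card ≤ j) (hvi : ‖v i‖ ≤ 3)
    (hR3 : ∀ y ∈ R, ‖y‖ ≤ 3) (hz1 : h ≤ ‖z - v i‖) (hz2 : ∀ y ∈ R, h ≤ ‖z - y‖) (c : ℝ)
    (hc : 0 < c) (hder : c ≤ ‖(derivative P).eval (v i)‖) :
    ‖(Lagrange.basis Finset.univ v i).eval z‖ ≤ ‖P.eval z‖ * (6 / h) ^ j / (c * h) := by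
  set N := Lagrange.nodal Finset.univ v with hN
  set G : ℂ[X] := ∏ y ∈ R, (X - C y) with hG
  have hN0 : N.eval (v i) = 0 := Lagrange.eval_nodal_at_node (Finset.mem_univ i)
  have hd : (derivative P).eval (v i) = lc * ((derivative N).eval (v i) * G.eval (v i)) := by
    rw [hP]
    simp [derivative_mul, hN0]
  have hN' : (derivative N).eval (v i) ≠ 0 := by
    intro h0
    rw [hd, h0] at hder
    simp at hder
    linarith
  have hzv : z ≠ v i := by
    intro h0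
    rw [h0, sub_self, norm_zero] at hz1
    linarith
  have hl := Lagrange.eval_basis_not_at_node (s := Finset.univ) (v := v) (Finset.mem_univ i) hzv
  rw [Lagrange.nodalWeight_eq_eval_derivative_nodal (Finset.mem_univ i), ← hN] at hl
  have hzv' : z - v i ≠ 0 := sub_ne_zero.mpr hzv
  have hid : (Lagrange.basis Finset.univ v i).eval z * (derivative P).eval (v i) * (z - v i) *
      G.eval z = P.eval z * G.eval (v i) := by
    rw [hl, hd]
    conv_rhs => rw [hP]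
    simp only [eval_mul, eval_C]
    field_simp
  have hGz : h ^ R.card ≤ ‖G.eval z‖ := by
    rw [hG, eval_prod, norm_prod, ← Finset.prod_const]
    apply Finset.prod_le_prod (fun _ _ => hh.le)
    intro y hy
    simpa using hz2 y hy
  have hGv : ‖G.eval (v i)‖ ≤ 6 ^ R.card := by
    rw [hG, eval_prod, norm_prod, ← Finset.prod_const]
    apply Finset.prod_le_prod (fun _ _ => norm_nonneg _)
    intro y hy
    have := norm_sub_le (v i) y
    have h2 := hR3 y hy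
    simp only [eval_sub, eval_X, eval_C]
    linarith
  have h1 := congrArg norm hid
  simp only [norm_mul] at h1
  have hl0 : 0 ≤ ‖(Lagrange.basis Finset.univ v i).eval z‖ := norm_nonneg _
  have hp0 : 0 ≤ ‖P.eval z‖ := norm_nonneg _
  generalize ‖(Lagrange.basis Finset.univ v i).eval z‖ = l at *
  generalize ‖(derivative P).eval (v i)‖ = A1 at *
  generalize ‖z - v i‖ = A2 at *
  generalize ‖G.eval z‖ = A3 at *
  generalize ‖G.eval (v i)‖ = A4 at *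
  generalize ‖P.eval z‖ = A5 at *
  have hA1 : 0 ≤ A1 := by linarith
  have hA2 : 0 ≤ A2 := by linarith
  have h2 : l * c * h * h ^ R.card ≤ A5 * 6 ^ R.card := by
    calc l * c * h * h ^ R.card ≤ l * A1 * A2 * A3 := by gcongr
      _ = _ := h1
      _ ≤ _ := by gcongr
  have h3 : l * (c * h) ≤ A5 * (6 / h) ^ R.card := by
    rw [div_pow, ← mul_div_assoc, le_div_iff₀ (by positivity)]
    linarith
  have h4 : (6 / h) ^ R.card ≤ (6 / h) ^ j :=
    pow_le_pow_right₀ (by rw [le_div_iff₀ hh]; linarith) hj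
  rw [le_div_iff₀ (by positivity)]
  exact h3.trans (by gcongr)

theorem fekete_avoid (P : ℂ[X]) (X0 : Finset ℂ) (lc : ℂ) (hP : P = C lc * ∏ x ∈ X0, (X - C x))
    (hX3 : ∀ x ∈ X0, ‖x‖ ≤ 3) (K1 : Set ℂ) (hXK : ∀ x ∈ X0, x ∈ K1)
    (j : ℕ) (h h' c a b : ℝ) (hh : 0 < h) (hh1 : h ≤ 1) (hh' : 0 < h') (hh1' : h' ≤ 1)
    (hc : 0 < c) (ha : 0 ≤ a)
    (hsep : ∀ x ∈ X0, ∀ y ∈ X0, x ≠ y → 2 * h ≤ ‖x - y‖)
    (hder : ∀ x ∈ X0, c ≤ ‖(derivative P).eval x‖)
    (centre : ℂ → Prop)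
    (harc : ∀ z ∈ K1, ¬ centre z → ‖P.eval z‖ ≤ a)
    (hcen : ∀ z ∈ K1, centre z → ‖P.eval z‖ ≤ b ∧ ∀ x ∈ X0, h' ≤ ‖z - x‖)
    (H3 : 8 * (X0.card : ℝ) ^ 2 * (a * (6 / h) ^ j / (c * h)) ≤ 1)
    (H4 : X0.card * (b * (6 / h') ^ j / (c * h')) ^ 2 ≤ 1 / 4)
    (m : ℕ) (hm1 : m + 1 ≤ X0.card) (hm2 : X0.card ≤ m + 1 + j) (x : Fin (m + 1) → ℂ)
    (hx : ∀ t, x t ∈ K1)
    (hF : ∀ y : Fin (m + 1) → ℂ, (∀ t, y t ∈ K1) →
      ‖(Matrix.vandermonde y).det‖ ≤ ‖(Matrix.vandermonde x).det‖) :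
    ∀ t, ¬ centre (x t) := by
  classical
  intro t0 ht0
  have hX0 : X0.Nonempty := Finset.card_pos.mp (by omega)
  have hnear : ∀ z : ℂ, ∃ σ ∈ X0, ∀ y ∈ X0, y ≠ σ → h ≤ ‖z - y‖ := by
    intro z
    obtain ⟨σ, hσ, hσ'⟩ := X0.exists_min_image (fun y => ‖z - y‖) hX0
    refine ⟨σ, hσ, fun y hy hne => ?_⟩
    have h1 := hsep y hy σ hσ hne
    have h2 := hσ' y hy
    have h3 : ‖y - σ‖ ≤ ‖z - y‖ + ‖z - σ‖ := by
      have := norm_sub_le (z - σ) (z - y)
      rw [show z - σ - (z - y) = y - σ by ring] at this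
      linarith
    linarith
  choose σ hσ hσ' using hnear
  set S : Finset ℂ := Finset.univ.image (fun t => σ (x t)) with hS
  have hS1 : S ⊆ X0 := by
    intro y hy
    obtain ⟨t, -, rfl⟩ := Finset.mem_image.mp hy
    exact hσ _
  have hS2 : S.card ≤ m + 1 := Finset.card_image_le.trans (by simp)
  obtain ⟨X', hX1, hX2, hX4⟩ := Finset.exists_subsuperset_card_eq hS1 hS2 hm1
  set e := Finset.equivFinOfCardEq hX4 with he
  set v : Fin (m + 1) → ℂ := fun i => (e.symm i : ℂ) with hv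
  have hvinj : Function.Injective v := fun i i' hii =>
    e.symm.injective (Subtype.ext hii)
  have hvX' : ∀ i, v i ∈ X' := fun i => (e.symm i).2
  have hvX : ∀ i, v i ∈ X0 := fun i => hX2 (hvX' i)
  have hsurj : ∀ y ∈ X', ∃ i, v i = y := fun y hy => ⟨e ⟨y, hy⟩, by simp [hv]⟩
  set R := X0 \ X' with hR
  have hRc : R.card ≤ j := by
    rw [hR, Finset.card_sdiff_of_subset hX2]
    omega
  have hP' : P = C lc * (Lagrange.nodal Finset.univ v * ∏ y ∈ R, (X - C y)) := by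
    rw [hP, ← Finset.prod_sdiff hX2, mul_comm (∏ y ∈ X0 \ X', (X - C y)), Lagrange.nodal_eq]
    congr 2
    rw [← Finset.prod_coe_sort X']
    exact (Fintype.prod_equiv e.symm _ _ (fun i => rfl)).symm
  have hR3 : ∀ y ∈ R, ‖y‖ ≤ 3 := fun y hy => hX3 y (Finset.mem_sdiff.mp hy).1
  set η := a * (6 / h) ^ j / (c * h) with hη
  have hη0 : 0 ≤ η := by positivity
  set N0 : ℝ := (X0.card : ℝ) with hN0
  have hN1 : ((m : ℝ) + 1) ≤ N0 := by rw [hN0]; exact_mod_cast hm1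
  have hm0 : (0 : ℝ) ≤ m := by positivity
  have hε1 : N0 * η ≤ 1 / 8 := by nlinarith [mul_nonneg hη0 (show 0 ≤ N0 by linarith)]
  have hη1 : η ≤ 1 / 8 := by nlinarith
  have hcenb : ∀ t, centre (x t) →
      ∑ i, ‖(Lagrange.basis Finset.univ v i).eval (x t)‖ ^ 2 ≤ 1 / 4 := by
    intro t ht
    obtain ⟨h1, h2⟩ := hcen (x t) (hx t) ht
    have h3 : ∀ i, ‖(Lagrange.basis Finset.univ v i).eval (x t)‖ ^ 2 ≤
        (b * (6 / h') ^ j / (c * h')) ^ 2 := by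
      intro i
      apply pow_le_pow_left₀ (norm_nonneg _)
      refine (basis_bound v R lc P hP' i (x t) h' hh' hh1' j hRc (hX3 _ (hvX i)) hR3
        (h2 _ (hvX i)) (fun y hy => h2 y (Finset.mem_sdiff.mp hy).1) c hc
        (hder _ (hvX i))).trans ?_
      gcongr
    refine (Finset.sum_le_sum fun i _ => h3 i).trans ?_
    simp only [Finset.sum_const, Finset.card_univ, Fintype.card_fin, nsmul_eq_mul]
    push_cast
    refine le_trans ?_ H4
    gcongr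
  have harcb : ∀ t, ¬ centre (x t) →
      ∑ i, ‖(Lagrange.basis Finset.univ v i).eval (x t)‖ ^ 2 ≤ 1 + 4 * (N0 * η) := by
    intro t ht
    have h1 := harc (x t) (hx t) ht
    have hσX' : σ (x t) ∈ X' := hX1 (Finset.mem_image.mpr ⟨t, Finset.mem_univ _, rfl⟩)
    obtain ⟨i0, hi0⟩ := hsurj _ hσX'
    have h3 : ∀ i ∈ Finset.univ.erase i0, ‖(Lagrange.basis Finset.univ v i).eval (x t)‖ ≤ η := by
      intro i hi
      have hne : v i ≠ σ (x t) := by
        rw [← hi0]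
        exact fun hc => (Finset.mem_erase.mp hi).1 (hvinj hc)
      refine (basis_bound v R lc P hP' i (x t) h hh hh1 j hRc (hX3 _ (hvX i)) hR3
        (hσ' _ _ (hvX i) hne) (fun y hy => hσ' _ y (Finset.mem_sdiff.mp hy).1 (by
          rintro rfl
          exact (Finset.mem_sdiff.mp hy).2 hσX')) c hc
        (hder _ (hvX i))).trans ?_
      rw [hη]
      gcongr
    have hcard : ((Finset.univ.erase i0).card : ℝ) = m := by
      rw [Finset.card_erase_of_mem (Finset.mem_univ _)]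
      simp
    have h4 : ∑ i ∈ Finset.univ.erase i0, ‖(Lagrange.basis Finset.univ v i).eval (x t)‖ ≤
        N0 * η := by
      refine (Finset.sum_le_sum h3).trans ?_
      rw [Finset.sum_const, nsmul_eq_mul, hcard]
      nlinarith
    have h5 : ∑ i ∈ Finset.univ.erase i0, ‖(Lagrange.basis Finset.univ v i).eval (x t)‖ ^ 2 ≤
        N0 * η := by
      refine le_trans (Finset.sum_le_sum fun i hi => ?_) h4
      have := h3 i hi
      have h0 := norm_nonneg ((Lagrange.basis Finset.univ v i).eval (x t))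
      nlinarith
    have h6 : ‖(Lagrange.basis Finset.univ v i0).eval (x t)‖ ≤ 1 + N0 * η := by
      have hsum := congrArg (eval (x t))
        (Lagrange.sum_basis (s := Finset.univ) (v := v) hvinj.injOn Finset.univ_nonempty)
      rw [eval_finsetSum, eval_one, ← Finset.add_sum_erase _ _ (Finset.mem_univ i0)] at hsum
      have h7 : (Lagrange.basis Finset.univ v i0).eval (x t) =
          1 - ∑ i ∈ Finset.univ.erase i0, (Lagrange.basis Finset.univ v i).eval (x t) := by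
        rw [← hsum]; ring
      rw [h7]
      refine (norm_sub_le _ _).trans ?_
      rw [norm_one]
      have := norm_sum_le (Finset.univ.erase i0)
        (fun i => (Lagrange.basis Finset.univ v i).eval (x t))
      linarith
    rw [← Finset.add_sum_erase _ _ (Finset.mem_univ i0)]
    have h8 := pow_le_pow_left₀ (norm_nonneg _) h6 2
    have h9 : 0 ≤ N0 * η := by positivity
    nlinarith
  have hall : ∀ t, ∑ i, ‖(Lagrange.basis Finset.univ v i).eval (x t)‖ ^ 2 ≤ 1 + 4 * (N0 * η) := by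
    intro t
    by_cases ht : centre (x t)
    · have h9 : 0 ≤ N0 * η := by positivity
      have := hcenb t ht
      linarith
    · exact harcb t ht
  have htot : ∑ t, ∑ i, ‖(Lagrange.basis Finset.univ v i).eval (x t)‖ ^ 2 < ((m + 1 : ℕ) : ℝ) := by
    rw [← Finset.add_sum_erase _ _ (Finset.mem_univ t0)]
    have h1 := hcenb t0 ht0
    have h2 : ∑ t ∈ Finset.univ.erase t0, ∑ i, ‖(Lagrange.basis Finset.univ v i).eval (x t)‖ ^ 2 ≤
        m * (1 + 4 * (N0 * η)) := by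
      refine (Finset.sum_le_sum fun t _ => hall t).trans ?_
      rw [Finset.sum_const, nsmul_eq_mul, Finset.card_erase_of_mem (Finset.mem_univ _)]
      simp
    have h3 : m * (4 * (N0 * η)) ≤ 1 / 2 := by
      have h9 : 0 ≤ N0 * η := by positivity
      have : m * (4 * (N0 * η)) ≤ N0 * (4 * (N0 * η)) := by gcongr; linarith
      nlinarith
    push_cast
    nlinarith
  have h1 := norm_det_vandermonde_lt v x hvinj htot
  have h2 := hF v (fun i => hXK _ (hvX i))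
  linarith

end Pool.Agent.Lib.MP_ad3787_an
end

-- part Pool.Agent.Lib.MP_ad3787_an.Plane
section

set_option autoImplicit false

namespace Pool.Agent.Lib.MP_ad3787_an

open Polynomial Filter Topology

theorem norm_pow_sub_pow_le' (a b : ℂ) (M : ℝ) (ha : ‖a‖ ≤ M) (hb : ‖b‖ ≤ M) (n : ℕ) :
    ‖a ^ (n + 1) - b ^ (n + 1)‖ ≤ (n + 1) * M ^ n * ‖a - b‖ := by
  have hM : 0 ≤ M := (norm_nonneg _).trans ha
  induction n with
  | zero => simp
  | succ n ih =>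
    have h1 : a ^ (n + 1 + 1) - b ^ (n + 1 + 1) =
        a * (a ^ (n + 1) - b ^ (n + 1)) + (a - b) * b ^ (n + 1) := by ring
    rw [h1]
    have h2 : ‖a * (a ^ (n + 1) - b ^ (n + 1))‖ ≤ M * ((n + 1) * M ^ n * ‖a - b‖) := by
      rw [norm_mul]
      exact mul_le_mul ha ih (norm_nonneg _) hM
    have h3 : ‖(a - b) * b ^ (n + 1)‖ ≤ ‖a - b‖ * M ^ (n + 1) := by
      rw [norm_mul, norm_pow]
      exact mul_le_mul_of_nonneg_left (pow_le_pow_left₀ (norm_nonneg _) hb _) (norm_nonneg _)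
    calc _ ≤ _ := norm_add_le _ _
      _ ≤ M * ((n + 1) * M ^ n * ‖a - b‖) + ‖a - b‖ * M ^ (n + 1) := add_le_add h2 h3
      _ = _ := by push_cast; ring

theorem root_unity_sep (ζ : ℂ) (n : ℕ) (hn : 1 ≤ n) (h : ζ ^ n = 1) (h1 : ζ ≠ 1) :
    1 ≤ n * ‖ζ - 1‖ := by
  have hnorm : ‖ζ‖ = 1 := by
    have := congrArg norm h
    rw [norm_pow, norm_one] at this
    exact (pow_eq_one_iff_of_nonneg (norm_nonneg _) (by omega)).mp this
  have hsum : ∑ i ∈ Finset.range n, ζ ^ i = 0 := by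
    have := geom_sum_mul ζ n
    rw [h, sub_self] at this
    exact (mul_eq_zero.mp this).resolve_right (sub_ne_zero.mpr h1)
  have hb : ∀ i ∈ Finset.range n, ‖1 - ζ ^ i‖ ≤ n * ‖ζ - 1‖ := by
    intro i hi
    have hi' : i < n := Finset.mem_range.mp hi
    rcases i with _ | i
    · simp; positivity
    · have := norm_pow_sub_pow_le' ζ 1 1 hnorm.le (by simp) i
      rw [one_pow, one_pow, mul_one] at this
      rw [norm_sub_rev]
      refine this.trans (mul_le_mul_of_nonneg_right ?_ (norm_nonneg _))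
      exact_mod_cast hi'.le
  have h2 : (n : ℂ) = ∑ i ∈ Finset.range n, (1 - ζ ^ i) := by
    rw [Finset.sum_sub_distrib, hsum]; simp
  have h3 : (n : ℝ) ≤ n * (n * ‖ζ - 1‖) := by
    calc (n : ℝ) = ‖(n : ℂ)‖ := by simp
      _ = ‖∑ i ∈ Finset.range n, (1 - ζ ^ i)‖ := by rw [← h2]
      _ ≤ ∑ i ∈ Finset.range n, ‖1 - ζ ^ i‖ := norm_sum_le _ _
      _ ≤ ∑ i ∈ Finset.range n, (n * ‖ζ - 1‖) := Finset.sum_le_sum hb
      _ = _ := by simp
  have hn' : (0 : ℝ) < n := by exact_mod_cast hn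
  nlinarith

theorem pow_eq_sep (a b : ℂ) (n : ℕ) (hn : 1 ≤ n) (h : a ^ n = b ^ n) (hab : a ≠ b)
    (hb : 1 ≤ ‖b‖) : 1 ≤ n * ‖a - b‖ := by
  have hb0 : b ≠ 0 := by
    rintro rfl
    simp at hb
    linarith
  have h1 := root_unity_sep (a / b) n hn (by rw [div_pow, h, div_self (pow_ne_zero _ hb0)])
    (by
      intro h2
      apply hab
      rwa [div_eq_one_iff_eq hb0] at h2)
  have h2 : a / b - 1 = (a - b) / b := by field_simp
  rw [h2, norm_div] at h1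
  have h3 : ‖a - b‖ / ‖b‖ ≤ ‖a - b‖ := div_le_self (norm_nonneg _) hb
  have hn' : (0 : ℝ) ≤ n := by positivity
  nlinarith

/-- Roots of `(w^s - 2)^k - 1` lie in the annulus `1 ≤ |w|`, `|w|^s ≤ 3`. -/
theorem root_facts (w : ℂ) (s k : ℕ) (hs : 1 ≤ s) (hk : 1 ≤ k) (h : (w ^ s - 2) ^ k = 1) :
    ‖w ^ s - 2‖ = 1 ∧ 1 ≤ ‖w‖ ∧ ‖w‖ ^ s ≤ 3 ∧ ‖w‖ ≤ 3 := by
  have h1 : ‖w ^ s - 2‖ = 1 := by
    have := congrArg norm h
    rw [norm_pow, norm_one] at this
    exact (pow_eq_one_iff_of_nonneg (norm_nonneg _) (by omega)).mp this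
  have h2 : ‖w‖ ^ s ≤ 3 := by
    have := norm_add_le (w ^ s - 2) 2
    rw [sub_add_cancel, h1, norm_pow] at this
    have h3 : ‖(2 : ℂ)‖ = 2 := by simp
    linarith
  have h3 : 1 ≤ ‖w‖ ^ s := by
    have := norm_sub_le (w ^ s) (w ^ s - 2)
    rw [sub_sub_cancel, h1, norm_pow] at this
    have h3 : ‖(2 : ℂ)‖ = 2 := by simp
    linarith
  have h4 : 1 ≤ ‖w‖ := by
    by_contra hc
    push Not at hc
    have := pow_lt_one₀ (norm_nonneg w) hc (show s ≠ 0 by omega)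
    linarith
  exact ⟨h1, h4, h2, (le_self_pow₀ h4 (by omega)).trans h2⟩

theorem root_sep (w w' : ℂ) (s k : ℕ) (hs : 1 ≤ s) (hk : 1 ≤ k) (h : (w ^ s - 2) ^ k = 1)
    (h' : (w' ^ s - 2) ^ k = 1) (hne : w ≠ w') : 1 ≤ 3 * k * s * ‖w - w'‖ := by
  obtain ⟨a1, a2, a3, a4⟩ := root_facts w s k hs hk h
  obtain ⟨b1, b2, b3, b4⟩ := root_facts w' s k hs hk h'
  have hk' : (1 : ℝ) ≤ k := by exact_mod_cast hk
  have hs' : (1 : ℝ) ≤ s := by exact_mod_cast hs
  by_cases hu : w ^ s = w' ^ s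
  · have := pow_eq_sep w w' s hs hu hne b2
    have h0 : 0 ≤ s * ‖w - w'‖ := by positivity
    nlinarith
  · have h1 := pow_eq_sep (w ^ s - 2) (w' ^ s - 2) k hk (by rw [h, h'])
      (fun hc => hu (by linear_combination hc)) b1.ge
    rw [sub_sub_sub_cancel_right] at h1
    obtain ⟨s', rfl⟩ : ∃ s', s = s' + 1 := ⟨s - 1, by omega⟩
    have h2 := norm_pow_sub_pow_le' w w' (max ‖w‖ ‖w'‖) (le_max_left _ _) (le_max_right _ _) s'
    have h3 : (max ‖w‖ ‖w'‖) ^ s' ≤ 3 := by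
      have hM : 1 ≤ max ‖w‖ ‖w'‖ := a2.trans (le_max_left _ _)
      refine (pow_le_pow_right₀ hM (Nat.le_succ s')).trans ?_
      rcases max_choice ‖w‖ ‖w'‖ with h4 | h4 <;> rw [h4] <;> assumption
    have h4 : ‖w ^ (s' + 1) - w' ^ (s' + 1)‖ ≤ (s' + 1) * 3 * ‖w - w'‖ := by
      refine h2.trans ?_
      gcongr
    push_cast
    calc (1 : ℝ) ≤ k * ‖w ^ (s' + 1) - w' ^ (s' + 1)‖ := h1
      _ ≤ k * ((s' + 1) * 3 * ‖w - w'‖) := by gcongr
      _ = _ := by ring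

/-- Points of the new lemniscate away from the centre. -/
theorem arc_facts (w : ℂ) (s k : ℕ) (hs : 8 ≤ s) (hk : 1 ≤ k)
    (h : 2 ^ s * (‖w‖ * ‖(w ^ s - 2) ^ k - 1‖) ≤ 3) (hw : 1 / 2 ≤ ‖w‖) :
    ‖(w ^ s - 2) ^ k - 1‖ ≤ 6 / 2 ^ s ∧ ‖(w ^ s - 2) ^ k - 1‖ ≤ 1 / 40 ∧
      1 / 2 ≤ ‖w ^ s - 2‖ ^ k ∧ ‖w ^ s - 2‖ ^ k ≤ 3 / 2 ∧ ‖w ^ s - 2‖ ≤ 3 / 2 ∧ ‖w‖ ≤ 3 := by
  have hp : (0 : ℝ) < 2 ^ s := by positivity
  have h1 : ‖(w ^ s - 2) ^ k - 1‖ ≤ 6 / 2 ^ s := by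
    rw [le_div_iff₀ hp]
    have := norm_nonneg ((w ^ s - 2) ^ k - 1)
    nlinarith [mul_nonneg hp.le this]
  have h256 : (256 : ℝ) ≤ 2 ^ s := by
    calc (256 : ℝ) = 2 ^ 8 := by norm_num
      _ ≤ 2 ^ s := pow_le_pow_right₀ (by norm_num) hs
  have h2 : ‖(w ^ s - 2) ^ k - 1‖ ≤ 1 / 40 := by
    refine h1.trans ?_
    rw [div_le_iff₀ hp]
    linarith
  have h3 : ‖w ^ s - 2‖ ^ k ≤ 3 / 2 := by
    have := norm_add_le ((w ^ s - 2) ^ k - 1) 1
    rw [sub_add_cancel, norm_pow, norm_one] at this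
    linarith
  have h4 : 1 / 2 ≤ ‖w ^ s - 2‖ ^ k := by
    have := norm_sub_le ((w ^ s - 2) ^ k) ((w ^ s - 2) ^ k - 1)
    rw [sub_sub_cancel, norm_pow, norm_one] at this
    linarith
  have h5 : ‖w ^ s - 2‖ ≤ 3 / 2 := by
    by_cases hc : ‖w ^ s - 2‖ ≤ 1
    · linarith
    · push Not at hc
      exact (le_self_pow₀ hc.le (by omega)).trans h3
  refine ⟨h1, h2, h4, h3, h5, ?_⟩
  by_contra hc
  push Not at hc
  have h6 : ‖w‖ ^ s ≤ 7 / 2 := by
    have := norm_add_le (w ^ s - 2) 2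
    rw [sub_add_cancel, norm_pow] at this
    have h3 : ‖(2 : ℂ)‖ = 2 := by simp
    linarith
  have h7 : ‖w‖ ^ 2 ≤ ‖w‖ ^ s := pow_le_pow_right₀ (by linarith) (by omega)
  nlinarith

theorem centre_facts (w : ℂ) (s k : ℕ) (hs : 1 ≤ s) (hw : ‖w‖ < 1 / 2) :
    ‖w ^ s‖ ≤ 1 / 2 ^ s ∧ 3 / 2 ≤ ‖w ^ s - 2‖ ∧ ‖w ^ s - 2‖ ≤ 3 ∧
      ‖(w ^ s - 2) ^ k - 1‖ ≤ 3 ^ k + 1 := by
  have h1 : ‖w ^ s‖ ≤ 1 / 2 ^ s := by
    rw [norm_pow, ← one_div_pow]
    exact pow_le_pow_left₀ (norm_nonneg _) hw.le _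
  have h2 : ‖w ^ s‖ ≤ 1 / 2 := by
    rw [norm_pow]
    exact (pow_le_of_le_one (norm_nonneg _) (by linarith) (by omega)).trans hw.le
  have h22 : ‖(2 : ℂ)‖ = 2 := by simp
  have h3 : 3 / 2 ≤ ‖w ^ s - 2‖ := by
    have := norm_sub_le (w ^ s) (w ^ s - 2)
    rw [sub_sub_cancel] at this
    linarith
  have h4 : ‖w ^ s - 2‖ ≤ 3 := by
    have := norm_sub_le (w ^ s) 2
    linarith
  refine ⟨h1, h3, h4, ?_⟩
  have := norm_sub_le ((w ^ s - 2) ^ k) 1
  rw [norm_pow, norm_one] at this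
  have h5 := pow_le_pow_left₀ (norm_nonneg _) h4 k
  linarith

/-- No critical points of `w ((w^s-2)^k - 1)` on the new lemniscate. -/
theorem no_crit (w : ℂ) (s k : ℕ) (hs : 8 ≤ s) (hk : 1 ≤ k)
    (hsk : 2 * k * 3 ^ k * s ≤ (2 : ℝ) ^ s)
    (h : 2 ^ s * (‖w‖ * ‖(w ^ s - 2) ^ k - 1‖) ≤ 3) :
    ((w ^ s - 2) ^ k - 1) * (w ^ s - 2) + s * k * w ^ s * (w ^ s - 2) ^ k ≠ 0 := by
  intro h0
  have h1 : ‖(w ^ s - 2) ^ k - 1‖ * ‖w ^ s - 2‖ = s * k * ‖w ^ s‖ * ‖w ^ s - 2‖ ^ k := by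
    have h2 : ((w ^ s - 2) ^ k - 1) * (w ^ s - 2) = -(s * k * w ^ s * (w ^ s - 2) ^ k) := by
      linear_combination h0
    have := congrArg norm h2
    simpa [norm_mul, norm_pow] using this
  have hk' : (1 : ℝ) ≤ k := by exact_mod_cast hk
  have hs' : (8 : ℝ) ≤ s := by exact_mod_cast hs
  have h22 : ‖(2 : ℂ)‖ = 2 := by simp
  by_cases hw : 1 / 2 ≤ ‖w‖
  · obtain ⟨-, a2, a3, a4, a5, -⟩ := arc_facts w s k hs hk h hw
    have a6 : 1 / 2 ≤ ‖w ^ s‖ := by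
      have := norm_sub_le (w ^ s) (w ^ s - 2)
      rw [sub_sub_cancel] at this
      linarith
    have a7 : (8 : ℝ) * 1 * (1 / 2) * (1 / 2) ≤ s * k * ‖w ^ s‖ * ‖w ^ s - 2‖ ^ k := by
      gcongr
    have a8 : ‖(w ^ s - 2) ^ k - 1‖ * ‖w ^ s - 2‖ ≤ 1 / 40 * (3 / 2) := by gcongr
    linarith
  · push Not at hw
    obtain ⟨a1, a2, a3, -⟩ := centre_facts w s k (by omega) hw
    have a4 : 3 / 2 ≤ ‖w ^ s - 2‖ ^ k := a2.trans (le_self_pow₀ (by linarith) (by omega))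
    have a5 : 1 / 2 ≤ ‖(w ^ s - 2) ^ k - 1‖ := by
      have := norm_add_le ((w ^ s - 2) ^ k - 1) 1
      rw [sub_add_cancel, norm_pow, norm_one] at this
      linarith
    have a6 : 1 / 2 * (3 / 2) ≤ ‖(w ^ s - 2) ^ k - 1‖ * ‖w ^ s - 2‖ := by gcongr
    have a7 : s * k * ‖w ^ s‖ * ‖w ^ s - 2‖ ^ k ≤ s * k * (1 / 2 ^ s) * 3 ^ k := by gcongr
    have hp : (0 : ℝ) < 2 ^ s := by positivity
    have a8 : (s : ℝ) * k * (1 / 2 ^ s) * 3 ^ k ≤ 1 / 2 := by
      have : (s : ℝ) * k * (1 / 2 ^ s) * 3 ^ k = (2 * k * 3 ^ k * s) / 2 ^ s / 2 := by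
        field_simp
      rw [this]
      have := (div_le_one hp).mpr hsk
      linarith
    linarith

theorem growth_fact (w : ℂ) (s k : ℕ) (hs : 1 ≤ s) (hk : 1 ≤ k) :
    2 ^ s * (‖w‖ * ‖(w ^ s - 2) ^ k - 1‖) ≤ (4 * max 1 ‖w‖) ^ (s * k + 1) := by
  have hm : 1 ≤ max 1 ‖w‖ := le_max_left _ _
  have hw : ‖w‖ ≤ max 1 ‖w‖ := le_max_right _ _
  set m := max 1 ‖w‖
  have hms : 1 ≤ m ^ s := one_le_pow₀ hm
  have h22 : ‖(2 : ℂ)‖ = 2 := by simp
  have h1 : ‖w ^ s - 2‖ ≤ 3 * m ^ s := by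
    have := norm_sub_le (w ^ s) 2
    rw [norm_pow] at this
    have h2 := pow_le_pow_left₀ (norm_nonneg _) hw s
    linarith
  have h2 : ‖(w ^ s - 2) ^ k - 1‖ ≤ 4 ^ k * m ^ (s * k) := by
    have := norm_sub_le ((w ^ s - 2) ^ k) 1
    rw [norm_pow, norm_one] at this
    have h3 := pow_le_pow_left₀ (norm_nonneg _) h1 k
    rw [mul_pow, ← pow_mul] at h3
    have h4 : 1 ≤ m ^ (s * k) := one_le_pow₀ hm
    have h5 : (3 : ℝ) ^ k + 1 ≤ 4 ^ k := by
      have := pow_add_pow_le' (a := (3 : ℝ)) (b := 1) (n := k) (by norm_num) (by norm_num)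
      have h6 := pow_add_pow_le (x := (3 : ℝ)) (y := 1) (n := k) (by norm_num) (by norm_num)
        (by omega)
      norm_num at h6
      exact h6
    nlinarith
  have h3 : (2 : ℝ) ^ s * 4 ^ k ≤ 4 ^ (s * k + 1) := by
    calc (2 : ℝ) ^ s * 4 ^ k ≤ 4 ^ s * 4 ^ k := by gcongr; norm_num
      _ = 4 ^ (s + k) := by rw [pow_add]
      _ ≤ _ := pow_le_pow_right₀ (by norm_num) (by nlinarith)
  calc 2 ^ s * (‖w‖ * ‖(w ^ s - 2) ^ k - 1‖) ≤ 2 ^ s * (m * (4 ^ k * m ^ (s * k))) := by gcongr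
    _ = (2 ^ s * 4 ^ k) * m ^ (s * k + 1) := by ring
    _ ≤ 4 ^ (s * k + 1) * m ^ (s * k + 1) := by gcongr
    _ = _ := by rw [mul_pow]

end Pool.Agent.Lib.MP_ad3787_an
end

-- part Pool.Agent.Lib.MP_ad3787_an.Step
section

set_option autoImplicit false

namespace Pool.Agent.Lib.MP_ad3787_an

open Polynomial Filter Topology

/-- A polynomial whose lemniscate of radius three is inside the disc of radius three and holds no
critical point. -/
def Good (Ω : ℂ[X]) : Prop :=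
  1 ≤ Ω.natDegree ∧ (∀ z, ‖Ω.eval z‖ ≤ 3 → ‖z‖ ≤ 3) ∧
    ∀ z, ‖Ω.eval z‖ ≤ 3 → (derivative Ω).eval z ≠ 0

theorem ev_pow (A : ℝ) (a : ℕ) : ∀ᶠ s : ℕ in atTop, A * (s : ℝ) ^ a ≤ 2 ^ s := by
  have h := (tendsto_pow_const_div_const_pow_of_one_lt a (r := 2) (by norm_num)).const_mul A
  rw [mul_zero] at h
  filter_upwards [h.eventually (gt_mem_nhds (show (0 : ℝ) < 1 by norm_num))] with s hs
  rw [← mul_div_assoc, div_lt_one (by positivity)] at hs
  exact hs.le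

theorem good_consts (Ω : ℂ[X]) (hΩ : Good Ω) : ∃ c Λ δ : ℝ, 0 < c ∧ 1 ≤ Λ ∧ 0 < δ ∧
    (∀ z, ‖Ω.eval z‖ ≤ 3 → c ≤ ‖(derivative Ω).eval z‖) ∧
    (∀ x y : ℂ, ‖x‖ ≤ 3 → ‖y‖ ≤ 3 → ‖Ω.eval x - Ω.eval y‖ ≤ Λ * ‖x - y‖) ∧
    (∀ x y : ℂ, ‖Ω.eval x‖ ≤ 3 → Ω.eval x = Ω.eval y → x ≠ y → δ ≤ ‖x - y‖) := by
  obtain ⟨-, h2, h3⟩ := hΩ
  have hT : IsCompact {z : ℂ | ‖Ω.eval z‖ ≤ 3} := by
    apply (isCompact_closedBall (0 : ℂ) 3).of_isClosed_subset
    · exact isClosed_le Ω.continuous.norm continuous_const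
    · intro z hz
      simpa using h2 z hz
  obtain ⟨c, hc, hc'⟩ := hT.exists_forall_le' (f := fun z => ‖(derivative Ω).eval z‖) (a := 0)
    (derivative Ω).continuous.norm.continuousOn (fun z hz => norm_pos_iff.mpr (h3 z hz))
  obtain ⟨Λ, hΛ, hΛ'⟩ := lip Ω 3
  obtain ⟨Λ2, hΛ2, hΛ2'⟩ := lip (derivative Ω) 3
  refine ⟨c, Λ, c / Λ2, hc, hΛ, by positivity, hc', hΛ', ?_⟩
  intro x y hx hxy hne
  have hx3 := h2 x hx
  have hy3 := h2 y (hxy ▸ hx)
  have hder : ∀ w : ℂ, HasDerivAt (fun w => Ω.eval w - (derivative Ω).eval x * w)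
      ((derivative Ω).eval w - (derivative Ω).eval x) w := by
    intro w
    have := (Ω.hasDerivAt w).sub ((hasDerivAt_id w).const_mul ((derivative Ω).eval x))
    rw [mul_one] at this
    exact this
  have := Convex.norm_image_sub_le_of_norm_hasDerivWithin_le
    (f := fun w => Ω.eval w - (derivative Ω).eval x * w)
    (f' := fun w => (derivative Ω).eval w - (derivative Ω).eval x) (C := Λ2 * ‖y - x‖)
    (s := Metric.closedBall (0 : ℂ) 3 ∩ Metric.closedBall x ‖y - x‖)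
    (x := x) (y := y) (fun w _ => (hder w).hasDerivWithinAt)
    (fun w hw => by
      have h4 := hΛ2' w x (by simpa using hw.1) hx3
      have h5 : ‖w - x‖ ≤ ‖y - x‖ := by simpa [dist_eq_norm] using hw.2
      exact h4.trans (by gcongr))
    ((convex_closedBall _ _).inter (convex_closedBall _ _))
    ⟨by simpa using hx3, by simp⟩ ⟨by simpa using hy3, by simp [dist_eq_norm]⟩
  have h6 : Ω.eval y - (derivative Ω).eval x * y - (Ω.eval x - (derivative Ω).eval x * x) =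
      -((derivative Ω).eval x * (y - x)) := by
    rw [hxy]; ring
  simp only [h6, norm_neg, norm_mul] at this
  have hpos : 0 < ‖y - x‖ := norm_pos_iff.mpr (sub_ne_zero.mpr hne.symm)
  have h7 : ‖(derivative Ω).eval x‖ ≤ Λ2 * ‖y - x‖ := le_of_mul_le_mul_right this hpos
  have h8 := hc' x hx
  rw [div_le_iff₀ (by linarith), norm_sub_rev]
  linarith

theorem step (Ω : ℂ[X]) (hΩ : Good Ω) (j : ℕ) : ∃ Ω' : ℂ[X], Good Ω' ∧
    (∀ z, ‖Ω'.eval z‖ ≤ 3 → ‖Ω.eval z‖ ≤ 3) ∧ (∀ z, Ω.eval z = 0 → Ω'.eval z = 0) ∧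
    (∃ d : ℕ, 2 ≤ d ∧ Ω'.natDegree = Ω.natDegree * d ∧
      ∀ z, ‖Ω'.eval z‖ ≤ (4 * max 1 ‖Ω.eval z‖) ^ d) ∧
    ∃ (N0 : ℕ) (p : ℂ[X]), j * p.natDegree + 1 ≤ N0 ∧
      (∀ z, Ω.eval z = 0 → 2 ^ j / 2 ≤ ‖p.eval z‖) ∧
      ∀ K1 : Set ℂ, (∀ z ∈ K1, ‖Ω'.eval z‖ ≤ 3) → (∀ z, Ω'.eval z = 0 → z ∈ K1) →
        ∀ m : ℕ, m + 1 ≤ N0 → N0 ≤ m + 1 + j → ∀ x : Fin (m + 1) → ℂ, (∀ t, x t ∈ K1) →
          (∀ y : Fin (m + 1) → ℂ, (∀ t, y t ∈ K1) →
            ‖(Matrix.vandermonde y).det‖ ≤ ‖(Matrix.vandermonde x).det‖) →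
          ∀ t, ‖p.eval (x t)‖ ≤ 1 := by
  classical
  obtain ⟨c, Λ, δ, hc, hΛ, hδ, hc', hΛ', hδ'⟩ := good_consts Ω hΩ
  obtain ⟨hD, hball, hcrit⟩ := hΩ
  set D := Ω.natDegree with hDdef
  set k := j * j + 1 with hk
  have hk1 : 1 ≤ k := by omega
  have hk1' : (1 : ℝ) ≤ k := by exact_mod_cast hk1
  set κ : ℝ := min δ (1 / (3 * k * Λ)) with hκ
  have hκ0 : 0 < κ := lt_min hδ (by positivity)
  have hκ1 : κ ≤ 1 := (min_le_right _ _).trans (by
    rw [div_le_one (by positivity)]; nlinarith)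
  set B : ℝ := (3 ^ k + 1) * (6 / (1 / (2 * Λ))) ^ j / (c * (1 / (2 * Λ))) with hB
  obtain ⟨s, hs8, hS2, hS3, hS4⟩ : ∃ s : ℕ, 8 ≤ s ∧ 2 * k * 3 ^ k * (s : ℝ) ^ 1 ≤ 2 ^ s ∧
      (8 * ((D : ℝ) * k) ^ 2 * 6 * (12 / κ) ^ j * 2 / (c * κ)) * (s : ℝ) ^ (j + 2) ≤ 2 ^ s ∧
      4 * ((D : ℝ) * k) * B ^ 2 ≤ s := by
    have e1 := eventually_ge_atTop 8
    have e2 := ev_pow (2 * k * 3 ^ k) 1
    have e3 := ev_pow (8 * ((D : ℝ) * k) ^ 2 * 6 * (12 / κ) ^ j * 2 / (c * κ)) (j + 2)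
    have e4 := (tendsto_natCast_atTop_atTop (R := ℝ)).eventually_ge_atTop
      (4 * ((D : ℝ) * k) * B ^ 2)
    exact (e1.and (e2.and (e3.and e4))).exists
  rw [pow_one] at hS2
  have hs1 : 1 ≤ s := by omega
  have hs8' : (8 : ℝ) ≤ s := by exact_mod_cast hs8
  set U : ℂ[X] := Ω ^ s - C 2 with hU
  set P : ℂ[X] := U ^ k - C 1 with hP
  set Ω' : ℂ[X] := C (2 ^ s) * (Ω * P) with hΩ'
  have hUe : ∀ z, U.eval z = Ω.eval z ^ s - 2 := fun z => by simp [hU]
  have hPe : ∀ z, P.eval z = (Ω.eval z ^ s - 2) ^ k - 1 := fun z => by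
    simp [hP, hUe]
  have hΩ'e : ∀ z, ‖Ω'.eval z‖ = 2 ^ s * (‖Ω.eval z‖ * ‖(Ω.eval z ^ s - 2) ^ k - 1‖) := by
    intro z
    simp [hΩ', hPe]
  have hUd : U.natDegree = s * D := by rw [hU, natDegree_sub_C, natDegree_pow]
  have hPd : P.natDegree = k * (s * D) := by rw [hP, natDegree_sub_C, natDegree_pow, hUd]
  have hΩ0 : Ω ≠ 0 := by
    intro h0
    rw [h0] at hDdef
    simp at hDdef
    omega
  have hP0 : P ≠ 0 := by
    intro h0
    rw [h0, natDegree_zero] at hPd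
    have : 0 < k * (s * D) := by positivity
    omega
  have hΩ'd : Ω'.natDegree = D * (s * k + 1) := by
    rw [hΩ', natDegree_C_mul (by simp), natDegree_mul hΩ0 hP0, hPd]
    ring
  have hPder : ∀ z, (derivative P).eval z =
      k * (Ω.eval z ^ s - 2) ^ (k - 1) * (s * Ω.eval z ^ (s - 1) * (derivative Ω).eval z) := by
    intro z
    simp [hP, hU, derivative_pow]
  have hnest : ∀ z, ‖Ω'.eval z‖ ≤ 3 → ‖Ω.eval z‖ ≤ 3 := by
    intro z hz
    rw [hΩ'e] at hz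
    by_cases hw : 1 / 2 ≤ ‖Ω.eval z‖
    · exact (arc_facts _ s k hs8 hk1 hz hw).2.2.2.2.2
    · linarith
  refine ⟨Ω', ⟨?_, fun z hz => hball z (hnest z hz), ?_⟩, hnest, ?_,
    ⟨s * k + 1, by nlinarith, hΩ'd, fun z => ?_⟩, k * (s * D), C (1 / 2) * U ^ j, ?_, ?_, ?_⟩
  · rw [hΩ'd]
    nlinarith
  · intro z hz h0
    have h1 := hcrit z (hnest z hz)
    rw [hΩ'e] at hz
    apply no_crit (Ω.eval z) s k hs8 hk1 hS2 hz
    have h2 : (derivative Ω').eval z = 2 ^ s * ((derivative Ω).eval z * P.eval z +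
        Ω.eval z * (derivative P).eval z) := by
      rw [hΩ', derivative_C_mul, derivative_mul]
      simp
    rw [h2, hPder, hPe] at h0
    obtain ⟨s', hs'⟩ : ∃ s', s = s' + 1 := ⟨s - 1, by omega⟩
    obtain ⟨k', hk'⟩ : ∃ k', k = k' + 1 := ⟨k - 1, by omega⟩
    have h3 : (2 : ℂ) ^ s ≠ 0 := by simp
    have h4 := (mul_eq_zero.mp h0).resolve_left h3
    have h5 : s - 1 = s' := by omega
    have h6 : k - 1 = k' := by omega
    rw [h5, h6] at h4
    apply mul_left_cancel₀ h1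
    have h7 : Ω.eval z ^ s = Ω.eval z ^ s' * Ω.eval z := by rw [hs', pow_succ]
    have h8 : (Ω.eval z ^ s - 2) ^ k = (Ω.eval z ^ s - 2) ^ k' * (Ω.eval z ^ s - 2) := by
      rw [hk', pow_succ]
    generalize Ω.eval z ^ s - 2 = u at *
    rw [h7]
    linear_combination u * h4 + (derivative Ω).eval z * s * k * (Ω.eval z ^ s' * Ω.eval z) * h8
  · intro z hz
    simp [hΩ', hz]
  · rw [hΩ'e]
    exact growth_fact _ s k hs1 hk1
  · have h1 : (C (1 / 2 : ℂ) * U ^ j).natDegree ≤ j * (s * D) := by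
      refine (natDegree_C_mul_le _ _).trans ?_
      rw [natDegree_pow, hUd]
    have h2 : 1 ≤ s * D := by nlinarith
    rw [hk]
    nlinarith
  · intro z hz
    have : Ω.eval z ^ s = 0 := by rw [hz, zero_pow (by omega)]
    simp [hUe, this]
    linarith
  intro K1 hK1 hK2 m hm1 hm2 x hx hF
  have hroot : ∀ z, P.eval z = 0 → (Ω.eval z ^ s - 2) ^ k = 1 := by
    intro z hz
    rw [hPe] at hz
    linear_combination hz
  have hderlow : ∀ z, P.eval z = 0 → s * c ≤ ‖(derivative P).eval z‖ := by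
    intro z hz
    obtain ⟨a1, a2, a3, a4⟩ := root_facts _ s k hs1 hk1 (hroot z hz)
    rw [hPder]
    simp only [norm_mul, norm_pow, a1, one_pow, Complex.norm_natCast]
    have a5 := hc' z a4
    have a6 : 1 ≤ ‖Ω.eval z‖ ^ (s - 1) := one_le_pow₀ a2
    calc s * c = 1 * 1 * (s * 1 * c) := by ring
      _ ≤ _ := by gcongr
  have hnodup : P.roots.Nodup := by
    rw [Multiset.nodup_iff_count_le_one]
    intro z
    rw [count_roots]
    by_contra hcon
    push Not at hcon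
    obtain ⟨b1, b2⟩ := (one_lt_rootMultiplicity_iff_isRoot hP0).mp hcon
    have := hderlow z b1
    rw [IsRoot.def.mp b2, norm_zero] at this
    have : 0 < s * c := by positivity
    linarith
  set X0 : Finset ℂ := ⟨P.roots, hnodup⟩ with hX0
  have hX0c : X0.card = k * (s * D) := by
    rw [← hPd, ← IsAlgClosed.card_roots_eq_natDegree]
    rfl
  have hX0m : ∀ z ∈ X0, P.eval z = 0 := fun z hz => (mem_roots hP0).mp hz
  have hfac : P = C P.leadingCoeff * ∏ y ∈ X0, (X - C y) :=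
    (C_leadingCoeff_mul_prod_multiset_X_sub_C IsAlgClosed.card_roots_eq_natDegree).symm
  have hX3' : ∀ z ∈ X0, ‖Ω.eval z‖ ≤ 3 := fun z hz =>
    (root_facts _ s k hs1 hk1 (hroot z (hX0m z hz))).2.2.2
  have hX3 : ∀ z ∈ X0, ‖z‖ ≤ 3 := fun z hz => hball z (hX3' z hz)
  have hp2 : (0 : ℝ) < 2 ^ s := by positivity
  have hav := fekete_avoid P X0 P.leadingCoeff hfac hX3 K1
    (fun z hz => hK2 z (by simp [hΩ', hX0m z hz])) j (κ / (2 * s)) (1 / (2 * Λ)) (s * c)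
    (6 / 2 ^ s) (3 ^ k + 1) (by positivity)
    (by rw [div_le_one (by positivity)]; linarith) (by positivity)
    (by rw [div_le_one (by positivity)]; linarith) (by positivity) (by positivity)
    ?_ (fun z hz => hderlow z (hX0m z hz)) (fun z => ‖Ω.eval z‖ < 1 / 2) ?_ ?_ ?_ ?_
    m (by omega) (by omega) x hx hF
  · intro t
    have h1 := hav t
    push Not at h1
    have h2 := hK1 _ (hx t)
    rw [hΩ'e] at h2
    obtain ⟨-, -, -, a4, -, -⟩ := arc_facts _ s k hs8 hk1 h2 h1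
    have a5 : ‖Ω.eval (x t) ^ s - 2‖ ^ j ≤ 3 / 2 := by
      by_cases hle : ‖Ω.eval (x t) ^ s - 2‖ ≤ 1
      · exact (pow_le_one₀ (norm_nonneg _) hle).trans (by norm_num)
      · push Not at hle
        exact (pow_le_pow_right₀ hle.le (by rw [hk]; nlinarith)).trans a4
    simp only [eval_mul, eval_C, eval_pow, hUe, norm_mul, norm_pow]
    have : ‖(1 / 2 : ℂ)‖ = 1 / 2 := by simp
    rw [this]
    linarith
  · intro y hy y' hy' hne
    have h1 : 2 * (κ / (2 * s)) = κ / s := by field_simp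
    rw [h1, div_le_iff₀ (by linarith)]
    by_cases h2 : Ω.eval y = Ω.eval y'
    · have h3 := hδ' y y' (hX3' y hy) h2 hne
      have h4 : κ ≤ δ := min_le_left _ _
      nlinarith [norm_nonneg (y - y')]
    · have h3 := root_sep _ _ s k hs1 hk1 (hroot y (hX0m y hy)) (hroot y' (hX0m y' hy')) h2
      have h4 := hΛ' y y' (hX3 y hy) (hX3 y' hy')
      have h5 : κ ≤ 1 / (3 * k * Λ) := min_le_right _ _
      refine h5.trans ?_
      rw [div_le_iff₀ (by positivity)]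
      calc (1 : ℝ) ≤ _ := h3
        _ ≤ 3 * k * s * (Λ * ‖y - y'‖) := by gcongr
        _ = _ := by ring
  · intro z hz h1
    push Not at h1
    have h2 := hK1 z hz
    rw [hΩ'e] at h2
    rw [hPe]
    exact (arc_facts _ s k hs8 hk1 h2 h1).1
  · intro z hz h1
    refine ⟨by rw [hPe]; exact (centre_facts _ s k hs1 h1).2.2.2, fun y hy => ?_⟩
    have h2 := (root_facts _ s k hs1 hk1 (hroot y (hX0m y hy))).2.1
    have h3 := hΛ' z y (hball z (by linarith)) (hX3 y hy)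
    have h4 := norm_sub_le (Ω.eval z) (Ω.eval z - Ω.eval y)
    rw [sub_sub_cancel] at h4
    rw [div_le_iff₀ (by positivity)]
    linarith
  · rw [hX0c]
    have h1 : 8 * ((k * (s * D) : ℕ) : ℝ) ^ 2 *
        (6 / 2 ^ s * (6 / (κ / (2 * s))) ^ j / (s * c * (κ / (2 * s)))) =
        (8 * ((D : ℝ) * k) ^ 2 * 6 * (12 / κ) ^ j * 2 / (c * κ)) * (s : ℝ) ^ (j + 2) / 2 ^ s := by
      have h2 : (6 / (κ / (2 * s))) = 12 / κ * s := by field_simp; ring
      rw [h2, mul_pow]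
      push_cast
      field_simp
      ring
    rw [h1, div_le_one hp2]
    exact hS3
  · rw [hX0c]
    have h1 : ((k * (s * D) : ℕ) : ℝ) *
        ((3 ^ k + 1) * (6 / (1 / (2 * Λ))) ^ j / (s * c * (1 / (2 * Λ)))) ^ 2 =
        (4 * ((D : ℝ) * k) * B ^ 2) / s / 4 := by
      rw [hB]
      push_cast
      field_simp
    rw [h1]
    have := (div_le_one (show (0 : ℝ) < s by linarith)).mpr hS4
    linarith

end Pool.Agent.Lib.MP_ad3787_an
end
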