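import Mathlib
import Pool.Agent.Lib.MP_ad3787_an.Step

set_option autoImplicit false

namespace Pool.Agent.Lib.MP_ad3787_an

open Polynomial Filter Topology

theorem good_X : Good (X : ℂ[X]) := by
  refine ⟨by simp, fun z hz => by simpa using hz, fun z _ => by simp⟩

/-- The recursively chosen polynomials. -/
noncomputable def seqG : ℕ → {Ω : ℂ[X] // Good Ω}
  | 0 => ⟨X, good_X⟩
  | j + 1 => ⟨Classical.choose (step (seqG j).1 (seqG j).2 j),
      (Classical.choose_spec (step (seqG j).1 (seqG j).2 j)).1⟩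

/-- One variable statement: a regular compact set on which no Fekete array of order `cn` is a
norming family. -/
theorem exists_bad : ∃ K1 : Set ℂ, IsCompact K1 ∧ K1.Nonempty ∧
    (∃ Φ : (Fin 1 → ℂ) → ℝ, Continuous Φ ∧ ∀ z, IsLUB (sic {y | y 0 ∈ K1} z) (Φ z)) ∧
    ∀ c : ℝ, 1 < c → ∀ Cst : ℝ, ∃ n : ℕ, ∃ p : ℂ[X], p.natDegree ≤ n ∧
      (∃ z ∈ K1, Cst < ‖p.eval z‖) ∧
      ∀ x : Fin (⌈c * (n : ℝ)⌉₊ + 1) → ℂ, (∀ t, x t ∈ K1) →
        (∀ y : Fin (⌈c * (n : ℝ)⌉₊ + 1) → ℂ, (∀ t, y t ∈ K1) →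
            ‖(Matrix.vandermonde y).det‖ ≤ ‖(Matrix.vandermonde x).det‖) →
          ∀ t, ‖p.eval (x t)‖ ≤ 1 := by
  set Ω : ℕ → ℂ[X] := fun j => (seqG j).1 with hΩ
  have hspec := fun j => Classical.choose_spec (step (seqG j).1 (seqG j).2 j)
  have hD : ∀ j, 1 ≤ (Ω j).natDegree := fun j => (seqG j).2.1
  have hnest : ∀ j z, ‖(Ω (j + 1)).eval z‖ ≤ 3 → ‖(Ω j).eval z‖ ≤ 3 := fun j => (hspec j).2.1
  have hzero : ∀ j z, (Ω j).eval z = 0 → (Ω (j + 1)).eval z = 0 := fun j => (hspec j).2.2.1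
  have hball : ∀ z, ‖(Ω 0).eval z‖ ≤ 3 → ‖z‖ ≤ 3 := (seqG 0).2.2.1
  have hgrow : ∀ j, ∃ d : ℕ, 2 ≤ d ∧ (Ω (j + 1)).natDegree = (Ω j).natDegree * d ∧
      ∀ z, ‖(Ω (j + 1)).eval z‖ ≤ (4 * max 1 ‖(Ω j).eval z‖) ^ d := fun j => (hspec j).2.2.2.1
  have hzK : ∀ j z, (Ω j).eval z = 0 → z ∈ ⋂ i, {z : ℂ | ‖(Ω i).eval z‖ ≤ 3} := by
    intro j z hz
    have h1 : ∀ i, j ≤ i → (Ω i).eval z = 0 := by
      intro i hi
      induction i, hi using Nat.le_induction with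
      | base => exact hz
      | succ i _ ih => exact hzero i z ih
    refine Set.mem_iInter.mpr fun i => ?_
    apply nest_le Ω hnest i (max i j) (le_max_left _ _)
    rw [h1 _ (le_max_right _ _)]
    simp
  have h0 : ∀ j, (Ω j).eval 0 = 0 := by
    intro j
    induction j with
    | zero => simp [hΩ, seqG]
    | succ j ih => exact hzero j 0 ih
  have hne : (⋂ i, {z : ℂ | ‖(Ω i).eval z‖ ≤ 3}).Nonempty := ⟨0, hzK 0 0 (h0 0)⟩
  refine ⟨⋂ i, {z : ℂ | ‖(Ω i).eval z‖ ≤ 3}, ?_, hne,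
    regular_seq Ω hD hnest hball hgrow hne, ?_⟩
  · exact (compact_level Ω hnest hball 0).of_isClosed_subset
      (isClosed_iInter fun i => (compact_level Ω hnest hball i).isClosed) (Set.iInter_subset _ 0)
  intro c hc Cst
  obtain ⟨j, hj1, hj2⟩ : ∃ j : ℕ, c ≤ j ∧ 2 * Cst < j := by
    obtain ⟨j, hj⟩ := exists_nat_gt (max c (2 * Cst))
    exact ⟨j, (le_max_left _ _).trans hj.le, (le_max_right _ _).trans_lt hj⟩
  obtain ⟨N0, p, hp1, hp2, hp3⟩ := (hspec j).2.2.2.2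
  obtain ⟨M, rfl⟩ : ∃ M, N0 = M + 1 := ⟨N0 - 1, by omega⟩
  have hc0 : 0 < c := by linarith
  refine ⟨⌊(M : ℝ) / c⌋₊, p, ?_, ⟨0, hzK 0 0 (h0 0), ?_⟩, ?_⟩
  · apply Nat.le_floor
    rw [le_div_iff₀ hc0]
    have h1 : ((j * p.natDegree : ℕ) : ℝ) ≤ M := by exact_mod_cast (by omega)
    push_cast at h1
    have h2 : (0 : ℝ) ≤ p.natDegree := by positivity
    nlinarith
  · have h1 := hp2 0 (h0 j)
    have h2 : (j : ℝ) < 2 ^ j := by exact_mod_cast Nat.lt_two_pow_self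
    linarith
  · intro x hx hF
    have h1 : c * (⌊(M : ℝ) / c⌋₊ : ℝ) ≤ M := by
      have := Nat.floor_le (show 0 ≤ (M : ℝ) / c by positivity)
      rw [le_div_iff₀ hc0] at this
      linarith
    have h2 : (M : ℝ) < c * (⌊(M : ℝ) / c⌋₊ : ℝ) + c := by
      have := Nat.lt_floor_add_one ((M : ℝ) / c)
      rw [div_lt_iff₀ hc0] at this
      linarith
    refine hp3 _ (fun z hz => Set.mem_iInter.mp hz (j + 1)) (fun z hz => hzK (j + 1) z hz)
      _ ?_ ?_ x hx hF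
    · have := Nat.ceil_le.mpr h1
      omega
    · have h3 := Nat.le_ceil (c * (⌊(M : ℝ) / c⌋₊ : ℝ))
      have h4 : (M : ℝ) < ((⌈c * (⌊(M : ℝ) / c⌋₊ : ℝ)⌉₊ + j : ℕ) : ℝ) := by
        push_cast
        linarith
      have h5 : M < ⌈c * (⌊(M : ℝ) / c⌋₊ : ℝ)⌉₊ + j := by exact_mod_cast h4
      omega

/-- Index type of monomials of degree at most `N` in one variable. -/
abbrev Idx (N : ℕ) := {α : Fin 1 → ℕ // α ∈ Finset.filter (fun α : Fin 1 → ℕ => ∑ i, α i ≤ N)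
  (Fintype.piFinset fun _ : Fin 1 => Finset.range (N + 1))}

/-- The exponent of a monomial. -/
def idxEquiv (N : ℕ) : Idx N ≃ Fin (N + 1) where
  toFun a := ⟨a.1 0, by
    have := (Finset.mem_filter.mp a.2).2
    simp at this
    omega⟩
  invFun i := ⟨fun _ => i, by
    simp only [Finset.mem_filter, Fintype.mem_piFinset, Finset.mem_range]
    refine ⟨fun _ => i.2, ?_⟩
    have := i.2
    simp
    omega⟩
  left_inv a := by
    ext i
    rw [Subsingleton.elim i 0]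
  right_inv i := rfl

theorem det_eq (N : ℕ) (y : Idx N → (Fin 1 → ℂ)) :
    (Matrix.of (fun a b : Idx N => ∏ i, y a i ^ (b.1 i))).det =
      (Matrix.vandermonde (fun t => y ((idxEquiv N).symm t) 0)).det := by
  rw [← Matrix.det_submatrix_equiv_self (idxEquiv N)]
  congr 1
  ext a b
  simp only [Matrix.of_apply, Matrix.submatrix_apply, Matrix.vandermonde_apply,
    Equiv.symm_apply_apply, Fin.prod_univ_one]
  rfl

theorem exists_fekete (K1 : Set ℂ) (hK : IsCompact K1) (hne : K1.Nonempty) (N : ℕ) :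
    ∃ x : Fin (N + 1) → ℂ, (∀ t, x t ∈ K1) ∧ ∀ y : Fin (N + 1) → ℂ, (∀ t, y t ∈ K1) →
      ‖(Matrix.vandermonde y).det‖ ≤ ‖(Matrix.vandermonde x).det‖ := by
  have hc : IsCompact (Set.univ.pi fun _ : Fin (N + 1) => K1) := isCompact_univ_pi fun _ => hK
  obtain ⟨z, hz⟩ := hne
  have hcont : Continuous fun y : Fin (N + 1) → ℂ => ‖(Matrix.vandermonde y).det‖ := by
    apply Continuous.norm
    apply Continuous.matrix_det
    refine continuous_matrix fun a b => ?_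
    simp only [Matrix.vandermonde_apply]
    fun_prop
  obtain ⟨x, hx, hx'⟩ := hc.exists_isMaxOn ⟨fun _ => z, fun _ _ => hz⟩ hcont.continuousOn
  exact ⟨x, fun t => hx t (Set.mem_univ _), fun y hy => hx' (fun t _ => hy t)⟩

end Pool.Agent.Lib.MP_ad3787_an
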